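import Pool.Agent.P.MP_ef347d_lc.H.Main

/-!
Circuit evaluation reduces to smoothed linear programming when the entries of the unperturbed data
are only bounded by one.  `Idx`, `Feasible`, `dc` are defined in `P/MP_ef347d_lc/Defs.lean`, and
`Circ`, `run`, `Unb` in `P/MP_ef347d_lc/H/Defs.lean`.
-/

namespace Pool.Agent.Results.MP_ef347d_lc.EntrywiseHard

open Pool.Agent.P.MP_ef347d_lc MeasureTheory ProbabilityTheory

/-- For every circuit with `N` gates there is a projection `D` from its inputs to linear programs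
of quasi-polynomial size with entries in `[-1, 1]` such that, for every input `x` and all noise
levels `|s a| ≤ n ^ (1 / 2 - 1 / (2 k + 2))` of the entries, with probability at least `9 / 10` the perturbed program
is unbounded exactly when the circuit accepts `x`. -/
theorem result (k : ℕ) : ∃ C : ℕ, ∀ (N : ℕ) (c : Circ N) (o : Fin N), ∃ m n : ℕ,
    1 ≤ m ∧ 1 ≤ n ∧ m + n ≤ (N + 2) ^ (C * (Nat.log 2 N + 1)) ∧
    ∃ D : (ℕ → Bool) → Idx m n → ℝ, (∀ x a, |D x a| ≤ 1) ∧
      (∀ a, ∃ j, ∀ x x', x j = x' j → D x a = D x' a) ∧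
      ∀ (x : ℕ → Bool) (s : Idx m n → ℝ), (∀ a, s a ^ (2 * k + 2) ≤ (n : ℝ) ^ k) →
        ∃ E : Set (Idx m n → ℝ), MeasurableSet E ∧
          9 / 10 ≤ (Measure.pi fun _ : Idx m n => gaussianReal 0 1).real E ∧
          ∀ Z ∈ E, Unb (D x + s * Z) ↔ run c x N o = true :=
  H.main k

end Pool.Agent.Results.MP_ef347d_lc.EntrywiseHard
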