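import Pool.Agent.P.MP_ef347d_lc.Sp.Fin

/-!
Linear programming has polylogarithmic smoothed parallel complexity, for centres of operator norm
at most one.  The machine model and the notions `input`, `Exec`, `Solves`, `dA`, `db`, `dc` are
defined in `Pool/Agent/P/MP_ef347d_lc/Defs.lean`.
-/

namespace Pool.Agent.Results.MP_ef347d_lc.Spectral

open Pool.Agent.P.MP_ef347d_lc Matrix MeasureTheory ProbabilityTheory

/-- One program solves every linear program with `(m + n + 3) ^ 4` processors, and its expected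
parallel time on `s`-Gaussian perturbations of data `(A, b, c)` with `A` of operator norm at most
`1` and `b`, `c` of norm at most `1` is `O (s⁻¹ ^ k₁ * (1 + log (m n)) ^ k₂)`. -/
theorem result : ∃ (prog : Cmd) (C : ℝ) (k₁ k₂ : ℕ),
    (∀ (m n : ℕ) (D : Idx m n → ℝ), ∃ σ T, Exec m n ((m + n + 3) ^ 4) prog (input D) σ T ∧
      Solves D σ) ∧
    ∀ m n : ℕ, 1 ≤ m → 1 ≤ n → ∀ s : ℝ, 0 < s → s ≤ 1 → ∀ D₀ : Idx m n → ℝ,
      (∀ x, (dA D₀ *ᵥ x) ⬝ᵥ (dA D₀ *ᵥ x) ≤ x ⬝ᵥ x) → db D₀ ⬝ᵥ db D₀ ≤ 1 → dc D₀ ⬝ᵥ dc D₀ ≤ 1 →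
      ∃ time : (Idx m n → ℝ) → ENNReal, Measurable time ∧
        (∀ D σ T, Exec m n ((m + n + 3) ^ 4) prog (input D) σ T → (T : ENNReal) ≤ time D) ∧
        ∫⁻ Z, time (D₀ + s • Z) ∂(Measure.pi fun _ : Idx m n => gaussianReal 0 1) ≤
          ENNReal.ofReal (C * s⁻¹ ^ k₁ * (1 + Real.log (m * n)) ^ k₂) :=
  Sp.main_op

end Pool.Agent.Results.MP_ef347d_lc.Spectral
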